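import Mathlib
import Pool.Agent.Z45.TwistBasic
import Pool.Agent.Z45.TwistTable

/-!
# MP_b57ad3_co: the twist graph of the 14-gon is connected

For `N = 14 ≡ 2 (mod 3)` the graph `𝓗_N` of the colorful triangulations of the `N`-gon, with twists
as edges, is connected (it has 140 vertices). So it is not true that `𝓗_N` is disconnected for every
`N ≥ 8` with `N ≡ 2 (mod 3)`.

The definitions are in `Pool/Agent/Z45/TwistBasic.lean`. Proof: a verified enumeration of all
colorful triangulations of the 14-gon and a spanning tree of twists.
-/

set_option autoImplicit false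

namespace Pool.Agent.Results.MP_b57ad3_co.ConnectedFourteen

open Pool.Agent.Z45.TwistGraph

/-- `𝓗_14` is connected; hence the assertion that `𝓗_N` is not connected for every `N ≥ 8` with
`N ≡ 2 (mod 3)` is false. -/
theorem result : (H 14).Connected ∧ ¬ ∀ N : ℕ, 8 ≤ N → N % 3 = 2 → ¬ (H N).Connected :=
  ⟨connected14, fun h => h 14 (by norm_num) (by norm_num) connected14⟩

end Pool.Agent.Results.MP_b57ad3_co.ConnectedFourteen
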